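import Pool.Agent.Results.MP_d900b7_an.KunenDiameter

/-!
# The Banach-Mazur diameter and uniform factorisation of finite-dimensional spaces

`D(X)` is the supremum of the Banach-Mazur distances of Banach spaces isomorphic to `X`
(`bmDiam X`, starting file `KunenDiameter`).

* If `X` is an infinite-dimensional Banach space and `D(X) < M`, then the identity of every
  finite-dimensional normed space `E` factors through `X` as `b ∘ a` with `‖a‖ ‖b‖ < M`.
* If `X` is infinite-dimensional and `X` or `X*` is locally complemented in a space `C(K)`, then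
  `D(X) = ∞`. Here `X` is locally complemented in `C(K)` if there are an operator
  `j : X → C(K)` and an operator `S` from `X*` to `C(K)*` that extends functionals, that is
  `(S f)(j x) = f x`. This holds for all complemented subspaces of `C(K)`-spaces (with
  `S f = f ∘ P`) and, more generally, for all spaces whose bidual is isomorphic to a
  complemented subspace of a `C(K)`-space.
* In particular `D(C(K)) = ∞` for every infinite compact Hausdorff space `K`, for example for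
  every Kunen compact.
-/

set_option autoImplicit false

namespace Pool.Agent.Results.MP_d900b7_an.UniformFactorisation

open scoped ENNReal NNReal
open Pool.Agent.TH327.CKDiam Pool.Agent.Results.MP_d900b7_an.KunenDiameter

universe u

/-- `X` is locally complemented in the space `C(K)` of real continuous functions on some compact
Hausdorff space `K`: there are an operator `j` of `X` into `C(K)` and an operator `S` of the dual
of `X` into the dual of `C(K)` such that `S f` extends the functional `f`, that is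
`(S f) (j x) = f x` for all `x`. (Equivalently, the canonical embedding of `X` into its bidual
factors through `C(K)`.) -/
def LocallyComplementedInCK (X : Type u) [NormedAddCommGroup X] [NormedSpace ℝ X] : Prop :=
  ∃ (K : Type u) (_ : TopologicalSpace K) (_ : CompactSpace K) (_ : T2Space K)
    (j : X →L[ℝ] C(K, ℝ)) (S : StrongDual ℝ X →L[ℝ] StrongDual ℝ C(K, ℝ)),
    ∀ f x, S f (j x) = f x

/-- If `D(X) < M` then the identities of all finite-dimensional spaces factor through `X` with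
constant less than `M`. -/
theorem factor_of_diam (X : Type u) [NormedAddCommGroup X] [NormedSpace ℝ X] [CompleteSpace X]
    (hX : ¬ FiniteDimensional ℝ X) (M : ℝ≥0∞) (hM : bmDiam X < M) (E : Type u)
    [NormedAddCommGroup E] [NormedSpace ℝ E] [FiniteDimensional ℝ E] :
    ∃ (a : E →L[ℝ] X) (b : X →L[ℝ] E), (∀ e, b (a e) = e) ∧
      ENNReal.ofReal (‖a‖ * ‖b‖) < M := by
  obtain ⟨a, b, hab⟩ := exists_copy hX E
  have hE : CompleteSpace E := FiniteDimensional.complete ℝ E
  have hN : IsClosed (LinearMap.ker (b : X →ₗ[ℝ] E) : Set X) := b.isClosed_ker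
  have hcN : CompleteSpace (LinearMap.ker (b : X →ₗ[ℝ] E)) := hN.completeSpace_coe
  have h1 := (le_diam (split a b hab)).trans_lt hM
  unfold bmDist at h1
  obtain ⟨T, hT⟩ := iInf_lt_iff.1 h1
  obtain ⟨a', b', hab', hle⟩ := factor T
  exact ⟨a', b', hab', (ENNReal.ofReal_le_ofReal hle).trans_lt hT⟩

section Euclid

variable {X : Type*} [NormedAddCommGroup X] [NormedSpace ℝ X]

/-- The extension of an operator into a Euclidean space along an extension operator for
functionals. -/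
theorem exists_ext {Y : Type*} [NormedAddCommGroup Y] [NormedSpace ℝ Y] (j : X →L[ℝ] Y)
    (S : StrongDual ℝ X →L[ℝ] StrongDual ℝ Y) (hS : ∀ f x, S f (j x) = f x) (n : ℕ)
    (b : X →L[ℝ] En.{u} n) :
    ∃ B : Y →L[ℝ] En.{u} n, (∀ x, B (j x) = b x) ∧ ‖B‖ ≤ ‖S‖ * ‖b‖ := by
  have hS0 : 0 ≤ ‖S‖ := S.opNorm_nonneg
  have hb0 : 0 ≤ ‖b‖ := b.opNorm_nonneg
  let pr : ULift.{u} (Fin n) → StrongDual ℝ X := fun i => (EuclideanSpace.proj i).comp b
  let B0 : Y →ₗ[ℝ] En.{u} n :=
    { toFun := fun y => WithLp.toLp 2 (fun i => S (pr i) y)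
      map_add' := fun y z => by
        ext i
        exact map_add (S (pr i)) y z
      map_smul' := fun c y => by
        ext i
        exact map_smul (S (pr i)) c y }
  have hbound : ∀ y, ‖B0 y‖ ≤ ‖S‖ * ‖b‖ * ‖y‖ := by
    intro y
    set v : En.{u} n := B0 y with hv
    have hvi : ∀ i, v i = S (pr i) y := fun i => rfl
    let g : StrongDual ℝ X := ∑ i, v i • pr i
    have hg : S g y = ‖v‖ ^ 2 := by
      have h1 : S g = ∑ i, v i • S (pr i) := by
        simp only [g, map_sum, map_smul]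
      rw [h1, EuclideanSpace.norm_sq_eq, sum_apply]
      refine Finset.sum_congr rfl fun i _ => ?_
      rw [Real.norm_eq_abs, sq_abs, sq]
      show v i * S (pr i) y = v i * v i
      rw [← hvi]
    have hgn : ‖g‖ ≤ ‖v‖ * ‖b‖ := by
      refine ContinuousLinearMap.opNorm_le_bound _ (by positivity) fun x => ?_
      have h1 : g x = inner ℝ (b x) v := by
        simp only [g, PiLp.inner_apply]
        rw [sum_apply]
        refine Finset.sum_congr rfl fun i _ => ?_
        simp [pr]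
      rw [h1]
      calc ‖inner ℝ (b x) v‖ ≤ ‖b x‖ * ‖v‖ := norm_inner_le_norm _ _
        _ ≤ (‖b‖ * ‖x‖) * ‖v‖ := by
          exact mul_le_mul_of_nonneg_right (b.le_opNorm x) (norm_nonneg _)
        _ = ‖v‖ * ‖b‖ * ‖x‖ := by ring
    have h2 : ‖v‖ ^ 2 ≤ ‖S‖ * (‖v‖ * ‖b‖) * ‖y‖ := by
      calc ‖v‖ ^ 2 = S g y := hg.symm
        _ ≤ ‖S g y‖ := Real.le_norm_self _
        _ ≤ ‖S g‖ * ‖y‖ := (S g).le_opNorm y
        _ ≤ (‖S‖ * ‖g‖) * ‖y‖ := mul_le_mul_of_nonneg_right (S.le_opNorm g) (norm_nonneg _)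
        _ ≤ (‖S‖ * (‖v‖ * ‖b‖)) * ‖y‖ := by
          refine mul_le_mul_of_nonneg_right ?_ (norm_nonneg _)
          exact mul_le_mul_of_nonneg_left hgn hS0
    rcases (norm_nonneg v).eq_or_lt with h0 | h0
    · rw [← h0]
      positivity
    · have h3 : ‖v‖ * ‖v‖ ≤ (‖S‖ * ‖b‖ * ‖y‖) * ‖v‖ := by nlinarith
      exact le_of_mul_le_mul_right h3 h0
  refine ⟨B0.mkContinuous (‖S‖ * ‖b‖) hbound, fun x => ?_,
    LinearMap.mkContinuous_norm_le _ (by positivity) _⟩
  ext i
  exact hS (pr i) x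

/-- The dual factorisation. -/
theorem exists_dual (n : ℕ) (a : En.{u} n →L[ℝ] X) (b : X →L[ℝ] En.{u} n)
    (hab : ∀ x, b (a x) = x) :
    ∃ (a' : En.{u} n →L[ℝ] StrongDual ℝ X) (b' : StrongDual ℝ X →L[ℝ] En.{u} n),
      (∀ x, b' (a' x) = x) ∧ ‖a'‖ ≤ ‖b‖ ∧ ‖b'‖ ≤ ‖a‖ := by
  classical
  let e : ULift.{u} (Fin n) → En.{u} n := fun i => EuclideanSpace.single i (1 : ℝ)
  -- `a' v = ⟨v, b ·⟩`
  let A0 : En.{u} n →ₗ[ℝ] StrongDual ℝ X :=
    { toFun := fun v => (innerSL ℝ v).comp b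
      map_add' := fun v w => by
        ext x
        simp
      map_smul' := fun c v => by
        ext x
        simp }
  have hA0 : ∀ v x, A0 v x = inner ℝ v (b x) := fun v x => rfl
  have hA : ∀ v, ‖A0 v‖ ≤ ‖b‖ * ‖v‖ := by
    intro v
    refine ContinuousLinearMap.opNorm_le_bound _ (by positivity) fun x => ?_
    rw [hA0]
    calc ‖inner ℝ v (b x)‖ ≤ ‖v‖ * ‖b x‖ := norm_inner_le_norm _ _
      _ ≤ ‖v‖ * (‖b‖ * ‖x‖) := mul_le_mul_of_nonneg_left (b.le_opNorm x) (norm_nonneg _)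
      _ = ‖b‖ * ‖v‖ * ‖x‖ := by ring
  let B0 : StrongDual ℝ X →ₗ[ℝ] En.{u} n :=
    { toFun := fun f => WithLp.toLp 2 (fun i => f (a (e i)))
      map_add' := fun f g => by
        ext i
        rfl
      map_smul' := fun c f => by
        ext i
        rfl }
  have hB : ∀ f, ‖B0 f‖ ≤ ‖a‖ * ‖f‖ := by
    intro f
    set v : En.{u} n := B0 f with hv
    have hvi : ∀ i, v i = f (a (e i)) := fun i => rfl
    have hsum : v = ∑ i, v i • e i := by
      ext k
      rw [WithLp.ofLp_sum, Finset.sum_apply, Finset.sum_eq_single k]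
      · simp [e]
      · intro i _ hik
        simp [e, Ne.symm hik]
      · simp
    have h1 : f (a v) = ‖v‖ ^ 2 := by
      conv_lhs => rw [hsum]
      simp only [map_sum, map_smul, smul_eq_mul, ← hvi]
      rw [EuclideanSpace.norm_sq_eq]
      refine Finset.sum_congr rfl fun i _ => ?_
      rw [Real.norm_eq_abs, sq_abs, sq]
    have h2 : ‖v‖ ^ 2 ≤ ‖f‖ * (‖a‖ * ‖v‖) := by
      calc ‖v‖ ^ 2 = f (a v) := h1.symm
        _ ≤ ‖f (a v)‖ := Real.le_norm_self _
        _ ≤ ‖f‖ * ‖a v‖ := f.le_opNorm _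
        _ ≤ ‖f‖ * (‖a‖ * ‖v‖) := mul_le_mul_of_nonneg_left (a.le_opNorm v) (norm_nonneg _)
    rcases (norm_nonneg v).eq_or_lt with h0 | h0
    · rw [← h0]
      positivity
    · have h3 : ‖v‖ * ‖v‖ ≤ (‖a‖ * ‖f‖) * ‖v‖ := by nlinarith
      exact le_of_mul_le_mul_right h3 h0
  refine ⟨A0.mkContinuous ‖b‖ hA, B0.mkContinuous ‖a‖ hB, fun x => ?_,
    LinearMap.mkContinuous_norm_le _ (norm_nonneg _) _,
    LinearMap.mkContinuous_norm_le _ (norm_nonneg _) _⟩
  ext i
  show inner ℝ x (b (a (e i))) = x i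
  rw [hab, EuclideanSpace.inner_single_right]
  simp

/-- the same, with a constant which does not depend on `n` and `b` -/
theorem exists_ext_const {Y : Type*} [NormedAddCommGroup Y] [NormedSpace ℝ Y] (j : X →L[ℝ] Y)
    (S : StrongDual ℝ X →L[ℝ] StrongDual ℝ Y) (hS : ∀ f x, S f (j x) = f x) :
    ∃ c : ℝ, 0 ≤ c ∧ ∀ (n : ℕ) (b : X →L[ℝ] En.{u} n),
      ∃ B : Y →L[ℝ] En.{u} n, (∀ x, B (j x) = b x) ∧ ‖B‖ ≤ c * ‖b‖ :=
  ⟨‖S‖, S.opNorm_nonneg, fun n b => exists_ext j S hS n b⟩

/-- A projection gives an extension operator for functionals. -/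
theorem exists_extension {Y : Type*} [NormedAddCommGroup Y] [NormedSpace ℝ Y] (j : X →L[ℝ] Y)
    (P : Y →L[ℝ] X) (hP : ∀ x, P (j x) = x) :
    ∃ S : StrongDual ℝ X →L[ℝ] StrongDual ℝ Y, ∀ f x, S f (j x) = f x :=
  ⟨(ContinuousLinearMap.compL ℝ Y X ℝ).flip P, fun f x => congrArg f (hP x)⟩

end Euclid

/-- Euclidean spaces do not factor uniformly through a locally complemented subspace of a
`C(K)`-space. -/
theorem lower_of_through {X : Type u} [NormedAddCommGroup X] [NormedSpace ℝ X]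
    (h : LocallyComplementedInCK X) :
    ∃ C : ℝ, 0 < C ∧ ∀ (n : ℕ) (a : En.{u} n →L[ℝ] X) (b : X →L[ℝ] En.{u} n),
      (∀ x, b (a x) = x) → Real.sqrt n ≤ C * (‖a‖ * ‖b‖) := by
  obtain ⟨K, _, _, _, j, S, hS⟩ := h
  obtain ⟨c, hc, hext⟩ := exists_ext_const.{u} j S hS
  have hj0 : 0 ≤ ‖j‖ := j.opNorm_nonneg
  refine ⟨9 / 4 * (‖j‖ * c + 1), by positivity, fun n a b hab => ?_⟩
  have ha0 : 0 ≤ ‖a‖ := a.opNorm_nonneg
  have hb0 : 0 ≤ ‖b‖ := b.opNorm_nonneg
  obtain ⟨B, hB, hBn⟩ := hext n b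
  have hB0 : 0 ≤ ‖B‖ := B.opNorm_nonneg
  have h1 := main_ineq n (j.comp a) B (fun x => by
    show B (j (a x)) = x
    rw [hB, hab])
  have h2 : ‖j.comp a‖ ≤ ‖j‖ * ‖a‖ := ContinuousLinearMap.opNorm_comp_le _ _
  have h3 : ‖j.comp a‖ * ‖B‖ ≤ (‖j‖ * ‖a‖) * (c * ‖b‖) :=
    mul_le_mul h2 hBn hB0 (mul_nonneg hj0 ha0)
  have h4 : 0 ≤ ‖a‖ * ‖b‖ := mul_nonneg ha0 hb0
  calc Real.sqrt n ≤ 9 / 4 * (‖j.comp a‖ * ‖B‖) := h1
    _ ≤ 9 / 4 * ((‖j‖ * ‖a‖) * (c * ‖b‖)) := by linarith
    _ = 9 / 4 * (‖j‖ * c) * (‖a‖ * ‖b‖) := by ring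
    _ ≤ 9 / 4 * (‖j‖ * c + 1) * (‖a‖ * ‖b‖) := by linarith

/-- the same for spaces whose dual has this property -/
theorem lower_of_dual {X : Type u} [NormedAddCommGroup X] [NormedSpace ℝ X]
    (h : LocallyComplementedInCK X ∨ LocallyComplementedInCK (StrongDual ℝ X)) :
    ∃ C : ℝ, 0 < C ∧ ∀ (n : ℕ) (a : En.{u} n →L[ℝ] X) (b : X →L[ℝ] En.{u} n),
      (∀ x, b (a x) = x) → Real.sqrt n ≤ C * (‖a‖ * ‖b‖) := by
  rcases h with h | h
  · exact lower_of_through h
  · obtain ⟨C, hC, hlow⟩ := lower_of_through h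
    refine ⟨C, hC, fun n a b hab => ?_⟩
    obtain ⟨a', b', hab', ha', hb'⟩ := exists_dual n a b hab
    refine (hlow n a' b' hab').trans ?_
    have h1 : ‖a'‖ * ‖b'‖ ≤ ‖b‖ * ‖a‖ :=
      mul_le_mul ha' hb' (ContinuousLinearMap.opNorm_nonneg _) (ContinuousLinearMap.opNorm_nonneg _)
    rw [mul_comm ‖a‖]
    exact mul_le_mul_of_nonneg_left h1 hC.le

/-- **Locally complemented subspaces of `C(K)`-spaces and their preduals have infinite
diameter.** -/
theorem diam_of_through (X : Type u) [NormedAddCommGroup X] [NormedSpace ℝ X] [CompleteSpace X]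
    (hX : ¬ FiniteDimensional ℝ X) (h : LocallyComplementedInCK X ∨ LocallyComplementedInCK (StrongDual ℝ X)) :
    bmDiam X = ∞ := by
  by_contra hne
  obtain ⟨M, hM1, hM2⟩ := ENNReal.lt_iff_exists_nnreal_btwn.1 (lt_top_iff_ne_top.2 hne)
  obtain ⟨C, hC, hlow⟩ := lower_of_dual h
  obtain ⟨n, hn⟩ := exists_nat_ge ((C * (M : ℝ)) ^ 2)
  obtain ⟨a, b, hab, hlt⟩ := factor_of_diam X hX M hM1 (En.{u} n)
  have h1 : ‖a‖ * ‖b‖ < (M : ℝ) := by
    rw [← ENNReal.ofReal_coe_nnreal, ENNReal.ofReal_lt_ofReal_iff'] at hlt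
    exact hlt.1
  have h2 := hlow n a b hab
  have h3 : C * (M : ℝ) ≤ Real.sqrt n := Real.le_sqrt_of_sq_le hn
  have h4 : C * (‖a‖ * ‖b‖) < C * (M : ℝ) := mul_lt_mul_of_pos_left h1 hC
  linarith

/-- Complemented subspaces of `C(K)`-spaces are locally complemented. -/
theorem of_complemented {X : Type u} [NormedAddCommGroup X] [NormedSpace ℝ X] (K : Type u)
    [TopologicalSpace K] [CompactSpace K] [T2Space K] (j : X →L[ℝ] C(K, ℝ))
    (P : C(K, ℝ) →L[ℝ] X) (hP : ∀ x, P (j x) = x) : LocallyComplementedInCK X := by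
  obtain ⟨S, hS⟩ := exists_extension j P hP
  exact ⟨K, inferInstance, inferInstance, inferInstance, j, S, hS⟩

/-- **Main theorem.**
(1) If `X` is an infinite-dimensional Banach space with `D(X) < M`, then for every
finite-dimensional normed space `E` there are operators `a : E → X` and `b : X → E` with
`b ∘ a = id` and `‖a‖ ‖b‖ < M`.
(2) If `X` is an infinite-dimensional Banach space such that `X` or `X*` is locally complemented
in a space `C(K)`, then `D(X) = ∞`.
(3) In particular `D(X) = ∞` for all infinite-dimensional complemented subspaces of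
`C(K)`-spaces, and `D(C(K)) = ∞` for every infinite compact Hausdorff space `K`, and for every
Kunen compact. -/
theorem result :
    (∀ (X : Type u) [NormedAddCommGroup X] [NormedSpace ℝ X] [CompleteSpace X],
      ¬ FiniteDimensional ℝ X → ∀ M : ℝ≥0∞, bmDiam X < M →
      ∀ (E : Type u) [NormedAddCommGroup E] [NormedSpace ℝ E] [FiniteDimensional ℝ E],
        ∃ (a : E →L[ℝ] X) (b : X →L[ℝ] E), (∀ e, b (a e) = e) ∧
          ENNReal.ofReal (‖a‖ * ‖b‖) < M) ∧
    (∀ (X : Type u) [NormedAddCommGroup X] [NormedSpace ℝ X] [CompleteSpace X],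
      ¬ FiniteDimensional ℝ X →
      (LocallyComplementedInCK X ∨ LocallyComplementedInCK (StrongDual ℝ X)) →
      bmDiam X = ∞) ∧
    (∀ (K : Type u) [TopologicalSpace K] [CompactSpace K] [T2Space K],
      (∀ (X : Type u) [NormedAddCommGroup X] [NormedSpace ℝ X] [CompleteSpace X]
        (j : X →L[ℝ] C(K, ℝ)) (P : C(K, ℝ) →L[ℝ] X), ¬ FiniteDimensional ℝ X →
        (∀ x, P (j x) = x) → bmDiam X = ∞) ∧
      ((Infinite K ∨ IsKunenCompact K) → bmDiam C(K, ℝ) = ∞)) := by
  refine ⟨fun X _ _ _ hX M hM E _ _ _ => factor_of_diam X hX M hM E,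
    fun X _ _ _ hX h => diam_of_through X hX h, fun K _ _ _ => ⟨?_, fun h => ?_⟩⟩
  · intro X _ _ _ j P hX hP
    exact diam_of_through X hX (Or.inl (of_complemented K j P hP))
  · rcases h with h | h
    · exact diam_of_through _ (infinite_dim (K := K))
        (Or.inl (of_complemented K (ContinuousLinearMap.id ℝ _) (ContinuousLinearMap.id ℝ _)
          fun _ => rfl))
    · exact (KunenDiameter.result K).1 h

end Pool.Agent.Results.MP_d900b7_an.UniformFactorisation
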